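import Pool.Agent.H33.Surj3

/-!
A separable Banach space `X`, a non-separable Banach space `Y` and a surjective, non-injective
algebra homomorphism from the bounded operators on `X` onto the bounded operators on `Y`.
-/

namespace Pool.Agent.Results.MP_3d4140_an.NonInjSurjHom

open Set Filter Topology Pool.Agent.H33

variable {𝕜 : Type*} [RCLike 𝕜]

lemma norm_infL_sub {γ γ' : ℕ → Bool} (h : γ ≠ γ') :
    1 ≤ ‖(Z.infL γ : Z 𝕜 →L[𝕜] 𝕜) - Z.infL γ'‖ := by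
  classical
  obtain ⟨k, hk⟩ := exists_not_agr h
  have hk0 : k ≠ 0 := by
    rintro rfl
    exact hk (agr_zero γ γ')
  have h1 := ((Z.infL γ : Z 𝕜 →L[𝕜] 𝕜) - Z.infL γ').le_opNorm (Z.e k γ)
  have h2 : ((Z.infL γ : Z 𝕜 →L[𝕜] 𝕜) - Z.infL γ' : Z 𝕜 →L[𝕜] 𝕜) (Z.e k γ) = 1 := by
    rw [_root_.sub_apply, Z.infL_apply, Z.infL_apply, Z.inf_e, Z.inf_e,
      if_pos ⟨hk0, agr.refl _ _⟩, if_neg (fun h => hk h.2), sub_zero]
  rw [h2, norm_one] at h1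
  calc (1 : ℝ) ≤ ‖(Z.infL γ : Z 𝕜 →L[𝕜] 𝕜) - Z.infL γ'‖ * ‖(Z.e k γ : Z 𝕜)‖ := h1
    _ ≤ ‖(Z.infL γ : Z 𝕜 →L[𝕜] 𝕜) - Z.infL γ'‖ * 1 := by
        gcongr
        exact Z.norm_e_le k γ
    _ = _ := mul_one _

lemma not_separable : ¬ TopologicalSpace.SeparableSpace (Z 𝕜 →L[𝕜] 𝕜) := by
  intro hsep
  have h1 : (Set.univ : Set (ℕ → Bool)).Countable := by
    apply Set.PairwiseDisjoint.countable_of_isOpen
      (s := fun γ : ℕ → Bool => Metric.ball (Z.infL γ : Z 𝕜 →L[𝕜] 𝕜) (1 / 2))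
    · intro γ _ γ' _ hne
      apply Metric.ball_disjoint_ball
      rw [dist_eq_norm]
      have := norm_infL_sub (𝕜 := 𝕜) hne
      linarith
    · intro γ _
      exact Metric.isOpen_ball
    · intro γ _
      exact Metric.nonempty_ball.2 (by norm_num)
  have h2 : Countable (ℕ → Bool) := Set.countable_univ_iff.1 h1
  obtain ⟨f, hf⟩ := exists_surjective_nat (ℕ → Bool)
  obtain ⟨n, hn⟩ := hf (fun m => !(f m m))
  have h3 := congrFun hn n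
  simp at h3

/-- A nonzero vector of the path space. -/
noncomputable def x₀ (𝕜 : Type*) [RCLike 𝕜] : E 𝕜 := E.stp 1 (Z.e 1 (fun _ => false))

/-- A nonzero element of `X`. -/
noncomputable def g₀ (𝕜 : Type*) [RCLike 𝕜] : XX 𝕜 :=
  XX.mk (E.cf 0 0 (Pool.Agent.H33.ext (fun _ : Fin 1 => false))) (cf_mem 0 0 _)

lemma g₀_x₀ : incl 𝕜 (g₀ 𝕜) (x₀ 𝕜) = 1 := by
  classical
  have hext : Pool.Agent.H33.ext (fun _ : Fin 1 => false) = fun _ => false := by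
    funext i
    simp [Pool.Agent.H33.ext]
  rw [g₀, incl_mk, hext, E.cf_apply, x₀, E.stp_apply, E.stp_apply, if_pos le_rfl,
    if_neg (by norm_num), sub_zero, Z.P_e_of_le le_rfl, Z.e_apply, Z.zero_left, if_pos, sub_zero]
  exact ⟨one_ne_zero, le_rfl, agr.refl _ _⟩

/-- A rank one operator. -/
noncomputable def T₀ (𝕜 : Type*) [RCLike 𝕜] : XX 𝕜 →L[𝕜] XX 𝕜 :=
  (iota 𝕜 (x₀ 𝕜)).smulRight (g₀ 𝕜)

lemma T₀_apply (g : XX 𝕜) : T₀ 𝕜 g = incl 𝕜 g (x₀ 𝕜) • g₀ 𝕜 := rfl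

lemma T₀_ne : T₀ 𝕜 ≠ 0 := by
  intro h
  have h1 : incl 𝕜 (T₀ 𝕜 (g₀ 𝕜)) (x₀ 𝕜) = 1 := by
    rw [T₀_apply, g₀_x₀, one_smul, g₀_x₀]
  rw [h, _root_.zero_apply, map_zero, _root_.zero_apply] at h1
  exact zero_ne_one h1

lemma sharp_T₀ (Φ : E 𝕜 →L[𝕜] 𝕜) : sharp (T₀ 𝕜) Φ = incl 𝕜 (Φ (x₀ 𝕜) • g₀ 𝕜) := by
  ext x
  rw [sharp_apply]
  have h1 : dualMap 𝕜 (T₀ 𝕜) (iota 𝕜 x) = (incl 𝕜 (g₀ 𝕜) x) • iota 𝕜 (x₀ 𝕜) := by
    ext g
    rw [dualMap_apply, iota_apply, T₀_apply, map_smul, _root_.smul_apply, _root_.smul_apply,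
      iota_apply, smul_eq_mul, smul_eq_mul, mul_comm]
  rw [h1, map_smul, extF_iota, map_smul, _root_.smul_apply, smul_eq_mul, smul_eq_mul, mul_comm]

lemma psi_T₀ : psi 𝕜 (T₀ 𝕜) = 0 := by
  rw [psi_apply]
  ext1 y
  rw [psiL_apply, sharp_T₀, lam_of_mem (incl_mem _)]
  rfl

/-- For both scalar fields there are a separable Banach space `X`, a non-separable Banach space
`Y` and a surjective, non-injective algebra homomorphism `B(X) → B(Y)`. -/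
theorem result (𝕜 : Type) [RCLike 𝕜] :
    ∃ (X Y : Type) (_ : NormedAddCommGroup X) (_ : NormedSpace 𝕜 X) (_ : CompleteSpace X)
      (_ : NormedAddCommGroup Y) (_ : NormedSpace 𝕜 Y) (_ : CompleteSpace Y),
      TopologicalSpace.SeparableSpace X ∧ ¬ TopologicalSpace.SeparableSpace Y ∧
      ∃ ψ : (X →L[𝕜] X) →ₐ[𝕜] (Y →L[𝕜] Y), Function.Surjective ψ ∧ ¬ Function.Injective ψ := by
  refine ⟨XX 𝕜, Z 𝕜 →L[𝕜] 𝕜, inferInstance, inferInstance, inferInstance, inferInstance,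
    inferInstance, inferInstance, inferInstance, not_separable, psi 𝕜, psi_surjective, ?_⟩
  intro hinj
  apply T₀_ne (𝕜 := 𝕜)
  apply hinj
  rw [psi_T₀, map_zero]

end Pool.Agent.Results.MP_3d4140_an.NonInjSurjHom
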